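import Mathlib
import Pool.Agent.Helper42.NHDefs
import Pool.Agent.Helper42.HNH

set_option autoImplicit false

namespace Pool.Agent.Results.MP_96a9b8_gt.OmegaOneInNH

open Pool.Agent.Helper42 Topology

/-- In every dimension `n ≥ 1` there is a homogeneous non-Hausdorff manifold `M` such that
`NH z` contains a copy of the ordinal space `ω₁` for every `z : M`. -/
theorem result : ∀ n : ℕ, 1 ≤ n → ∃ (M : Type) (_ : TopologicalSpace M),
    IsHNHManifold n M ∧
      ∀ z : M, ∃ f : Set.Iio (Ordinal.omega 1 : Ordinal.{0}) → M,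
        IsEmbedding f ∧ ∀ a, f a ∈ NH z :=
  main_omegaOne

end Pool.Agent.Results.MP_96a9b8_gt.OmegaOneInNH
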